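import Pool.Agent.H79.DO.ComplAux

/-!
# Completeness in terms of functions
-/

set_option autoImplicit false

namespace Pool.Agent.H79.DO

open Pool.Agent.H83 Matrix

/-- The reversed word as a function to labels. -/
def labF {k : ℕ} (u : List (Fin k)) (j : ℕ) : ℕ := (u.reverse.map Fin.val).getD j 0

/-- The suffix of length `j`. -/
def suf {k : ℕ} (u : List (Fin k)) (j : ℕ) : List (Fin k) := (u.reverse.take j).reverse

lemma suf_zero {k : ℕ} (u : List (Fin k)) : suf u 0 = [] := rfl

lemma suf_length {k : ℕ} (u : List (Fin k)) : suf u u.length = u := by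
  unfold suf
  rw [List.take_of_length_le (by simp), List.reverse_reverse]

lemma length_suf_le {k : ℕ} (u : List (Fin k)) (j : ℕ) : (suf u j).length ≤ u.length := by
  simp [suf]

lemma suf_succ {k : ℕ} (u : List (Fin k)) (j : ℕ) (hj : j < u.length) :
    ∃ l : Fin k, labF u j = l ∧ suf u (j + 1) = l :: suf u j := by
  have hj' : j < u.reverse.length := by simpa using hj
  refine ⟨u.reverse[j], ?_, ?_⟩
  · unfold labF
    rw [List.getD_eq_getElem _ _ (by simpa using hj)]
    simp
  · unfold suf
    rw [List.take_succ_eq_append_getElem hj']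
    simp

lemma labF_out {k : ℕ} (u : List (Fin k)) (j : ℕ) (hj : ¬ j < u.length) : labF u j = 0 := by
  unfold labF
  rw [List.getD_eq_default]
  simpa using hj

theorem compl (hC : CPL) (hW : WEI) : COMPL := by
  classical
  intro I z hn hm hk hb hY
  obtain ⟨M, μ, ν, hμ, hν, hD, σ₀, hσ₀⟩ := hY
  obtain ⟨w, W, σ, hw, hWle, hσ⟩ := hW (Fin I.n) (Fin I.m) (Fin I.k) M _ _ hμ hν σ₀ hσ₀
  simp only [Fintype.card_fin] at hWle
  have hWz : W ≤ 2 ^ ((6 * z + 1) * z) := hWle.trans (W_bound hn hm)
  obtain ⟨x1, x2, x3, x4, x5⟩ := exp_bounds z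
  have hpos2 : ∀ e, 0 < 2 ^ e := fun e => Nat.two_pow_pos e
  -- common denominators of the transition probabilities
  obtain ⟨D, hD0, hDle, P', hP'⟩ := common_den
    (ι := Fin I.n × Fin I.m × Fin I.k × Fin I.n)
    (fun p => I.fn p.1 p.2.1 p.2.2.1 p.2.2.2)
    (fun p => if p.2.1 ∈ M.enabled p.1 then I.fd p.1 p.2.1 p.2.2.1 p.2.2.2 else 1)
    (fun p => by
      split_ifs with h
      · exact (hD.prob p.1 p.2.1 h p.2.2.1 p.2.2.2).1
      · exact one_pos) z
    (fun p => by
      have := p.1.2
      split_ifs with h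
      · exact hb.fd _ _ _ _
      · exact Nat.one_lt_two_pow (by omega))
  obtain ⟨Gd, hGd0, hGdle, G, hG⟩ := common_den (ι := Fin I.n) (fun s => I.gn s) (fun s => I.gd s)
    (fun s => (hD.mu s).1) z (fun s => hb.gd s)
  obtain ⟨Hd, hHd0, hHdle, H, hH⟩ := common_den (ι := Fin I.n) (fun s => I.hn s) (fun s => I.hd s)
    (fun s => (hD.nu s).1) z (fun s => hb.hd s)
  have hDz : D ≤ 2 ^ z ^ 5 := by
    refine hDle.trans (Nat.pow_le_pow_right (by norm_num) ?_)
    simp only [Fintype.card_prod, Fintype.card_fin]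
    calc z * (I.n * (I.m * (I.k * I.n))) ≤ z * (z * (z * (z * z))) :=
          Nat.mul_le_mul_left _ (Nat.mul_le_mul hn (Nat.mul_le_mul hm (Nat.mul_le_mul hk hn)))
      _ = z ^ 5 := by ring
  have hGdz : Gd ≤ 2 ^ (z * z) := by
    refine hGdle.trans (Nat.pow_le_pow_right (by norm_num) ?_)
    rw [Fintype.card_fin]
    exact Nat.mul_le_mul_left _ hn
  have hHdz : Hd ≤ 2 ^ (z * z) := by
    refine hHdle.trans (Nat.pow_le_pow_right (by norm_num) ?_)
    rw [Fintype.card_fin]
    exact Nat.mul_le_mul_left _ hn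
  -- the numerators
  let P : Fin I.n → Fin I.m → Fin I.k → Fin I.n → ℕ := fun s a l t =>
    if a ∈ M.enabled s then P' (s, a, l, t) else 0
  have hPen : ∀ s, ∀ a ∈ M.enabled s, ∀ l t, P s a l t * I.fd s a l t = I.fn s a l t * D := by
    intro s a ha l t
    have := hP' (s, a, l, t)
    simp only [ha, if_true] at this
    simpa [P, ha] using this
  have hPeq : ∀ s, ∀ a ∈ M.enabled s, ∀ l t, M.prob s a (l, t) = (P s a l t : ℚ) / D := by
    intro s a ha l t
    obtain ⟨h1, h2⟩ := hD.prob s a ha l t
    rw [h2]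
    exact frac_eq_of h1 hD0 (hPen s a ha l t)
  have hNum : Numer M P D := ⟨hD0, hPeq⟩
  have hPsum : ∀ s, ∀ a ∈ M.enabled s, ∑ l, ∑ t, P s a l t = D := by
    intro s a ha
    have h1 := M.prob_sum s a ha
    rw [Fintype.sum_prod_type] at h1
    simp only [hPeq s a ha] at h1
    simp only [← Finset.sum_div] at h1
    rw [div_eq_one_iff_eq (by positivity)] at h1
    exact_mod_cast h1
  have hPle : ∀ s a l t, P s a l t ≤ D := by
    intro s a l t
    by_cases ha : a ∈ M.enabled s
    · rw [← hPsum s a ha]
      refine le_trans ?_ (Finset.single_le_sum (f := fun l => ∑ t, P s a l t)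
        (fun _ _ => Nat.zero_le _) (Finset.mem_univ l))
      exact Finset.single_le_sum (f := fun t => P s a l t)
        (fun _ _ => Nat.zero_le _) (Finset.mem_univ t)
    · simp [P, ha]
  have hGeq : ∀ s : Fin I.n, μ s = (G s : ℚ) / Gd := by
    intro s
    obtain ⟨h1, h2⟩ := hD.mu s
    rw [h2]
    exact frac_eq_of h1 hGd0 (hG s)
  have hHeq : ∀ s : Fin I.n, ν s = (H s : ℚ) / Hd := by
    intro s
    obtain ⟨h1, h2⟩ := hD.nu s
    rw [h2]
    exact frac_eq_of h1 hHd0 (hH s)
  have hGsum : ∑ s, G s = Gd := by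
    have h1 : ∑ s, μ s = 1 := by exact_mod_cast hμ.sum_one
    simp only [hGeq, ← Finset.sum_div] at h1
    rw [div_eq_one_iff_eq (by positivity)] at h1
    exact_mod_cast h1
  have hHsum : ∑ s, H s = Hd := by
    have h1 : ∑ s, ν s = 1 := by exact_mod_cast hν.sum_one
    simp only [hHeq, ← Finset.sum_div] at h1
    rw [div_eq_one_iff_eq (by positivity)] at h1
    exact_mod_cast h1
  have hGle : ∀ s, G s ≤ Gd := fun s => by
    rw [← hGsum]; exact Finset.single_le_sum (fun _ _ => Nat.zero_le _) (Finset.mem_univ s)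
  have hHle : ∀ s, H s ≤ Hd := fun s => by
    rw [← hHsum]; exact Finset.single_le_sum (fun _ _ => Nat.zero_le _) (Finset.mem_univ s)
  -- the abstract certificate
  obtain ⟨hNle, R, hR0, hR1, r, u, hr, hu, hc⟩ :=
    hC (Fin I.n) (Fin I.m) (Fin I.k) M _ _ hμ hν σ hσ w W P D hw hNum
  simp only [Fintype.card_fin] at hr hu hc
  choose c hc1 hc2 hc3 hc4 using hc
  -- the words
  let uu : ℕ → List (Fin I.k) := fun i => if h : i < r then u ⟨i, h⟩ else []
  have huu : ∀ i, (uu i).length ≤ I.n := by
    intro i
    simp only [uu]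
    split_ifs
    · exact hu _
    · simp
  have huu' : ∀ i, ¬ i < I.n → uu i = [] := by
    intro i hi
    simp only [uu]
    rw [dif_neg (by omega)]
  let C : NCert :=
    { w := ext2 0 w
      W := W
      D := D
      P := ext4 0 P
      G := ext1 0 G
      Gd := Gd
      H := ext1 0 H
      Hd := Hd
      R := ext2 false fun s t => decide (R s t)
      len := fun i => (uu i).length
      lab := fun i j => labF (uu i) j
      X := ext3 0 fun (i : Fin I.n) (j : Fin (I.n + 1)) (t : Fin I.n) => XV (NG w P) (suf (uu i) j) t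
      cp := ext2 0 fun (s i : Fin I.n) => if h : (i : ℕ) < r then (c s ⟨i, h⟩).toNat else 0
      cq := ext2 0 fun (s i : Fin I.n) => if h : (i : ℕ) < r then (-(c s ⟨i, h⟩)).toNat else 0 }
  have hNN : ∀ (l : Fin I.k) (s t : Fin I.n), NN I.m C l s t = NG w P l s t := by
    intro l s t
    simp only [NN, NG, C, Finset.sum_range, ext2_apply, ext4_apply]
  have hX : ∀ (i : Fin I.n) (j : ℕ) (hj : j < I.n + 1) (t : Fin I.n),
      C.X i j t = XV (NG w P) (suf (uu i) j) t := by
    intro i j hj t
    have := ext3_apply 0 (fun (i : Fin I.n) (j : Fin (I.n + 1)) (t : Fin I.n) =>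
      XV (NG w P) (suf (uu i) j) t) i ⟨j, hj⟩ t
    exact this
  have hsumc : ∀ (s t : Fin I.n) (f : (Fin r → ℤ) → Fin r → ℕ),
      ∑ i ∈ Finset.range I.n, (ext2 0 fun (s i : Fin I.n) => if h : (i : ℕ) < r then f (c s) ⟨i, h⟩ else 0) s i
        * C.X i (C.len i) t = ∑ i, f (c s) i * XV (NG w P) (u i) t := by
    intro s t f
    rw [← sum_range_ext hr (fun i => f (c s) i * XV (NG w P) (u i) t)]
    refine Finset.sum_congr rfl fun i hi => ?_
    rw [Finset.mem_range] at hi
    lift i to Fin I.n using hi
    rw [ext2_apply]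
    split_ifs with h
    · congr 1
      rw [hX i (C.len i) (by have := huu i; simp only [C]; omega) t]
      have e : C.len i = (uu i).length := rfl
      rw [e, suf_length]
      simp only [uu, h, dif_pos]
    · rw [Nat.zero_mul]
  have hdiff : ∀ s t : Fin I.n,
      ((∑ i, (c s i).toNat * XV (NG w P) (u i) t : ℕ) : ℤ) -
      ((∑ i, (-(c s i)).toNat * XV (NG w P) (u i) t : ℕ) : ℤ) = ∑ i, c s i * XV (NG w P) (u i) t := by
    intro s t
    push_cast
    rw [← Finset.sum_sub_distrib]
    refine Finset.sum_congr rfl fun i _ => ?_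
    rw [← sub_mul]
    congr 1
    exact toNat_sub (c s i)
  have hgood : Good I C := by
    refine ⟨⟨hD0, ?_⟩, ⟨hGd0, ?_, ?_⟩, ⟨hHd0, ?_, ?_⟩, ⟨hw.pos, ?_⟩, ⟨?_, ?_⟩, ?_, ?_⟩
    · intro s hs a ha hen
      lift s to Fin I.n using hs
      lift a to Fin I.m using ha
      rw [← hD.en] at hen
      refine ⟨fun l hl t ht => ?_, ?_⟩
      · lift l to Fin I.k using hl
        lift t to Fin I.n using ht
        refine ⟨(hD.prob s a hen l t).1, ?_⟩
        simp only [C, ext4_apply]
        exact hPen s a hen l t
      · simp only [C, Finset.sum_range, ext4_apply]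
        exact hPsum s a hen
    · intro s hs
      lift s to Fin I.n using hs
      refine ⟨(hD.mu s).1, ?_⟩
      simp only [C, ext1_apply]
      exact hG s
    · simp only [C, Finset.sum_range, ext1_apply]
      exact hGsum
    · intro s hs
      lift s to Fin I.n using hs
      refine ⟨(hD.nu s).1, ?_⟩
      simp only [C, ext1_apply]
      exact hH s
    · simp only [C, Finset.sum_range, ext1_apply]
      exact hHsum
    · intro s hs
      lift s to Fin I.n using hs
      refine ⟨fun a ha hen => ?_, ?_⟩
      · lift a to Fin I.m using ha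
        simp only [C, ext2_apply]
        refine hw.off s a ?_
        rw [hD.en, hen]
        simp
      · simp only [C, Finset.sum_range, ext2_apply]
        exact hw.sum s
    · intro s hs t ht h1 h2
      lift s to Fin I.n using hs
      lift t to Fin I.n using ht
      simp only [C, ext2_apply, decide_eq_true_eq]
      refine hR0 s t ?_ ?_
      · obtain ⟨h3, h4⟩ := hD.mu s
        rw [h4]
        have h3' : 0 < I.gd s := h3
        have h1' : (0 : ℚ) < I.gn s := by exact_mod_cast h1
        have h3'' : (0 : ℚ) < I.gd s := by exact_mod_cast h3'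
        have : (0 : ℚ) < (I.gn s : ℚ) / (I.gd s : ℚ) := div_pos h1' h3''
        exact_mod_cast this
      · obtain ⟨h3, h4⟩ := hD.nu t
        rw [h4]
        have h3' : 0 < I.hd t := h3
        have h1' : (0 : ℚ) < I.hn t := by exact_mod_cast h2
        have h3'' : (0 : ℚ) < I.hd t := by exact_mod_cast h3'
        have : (0 : ℚ) < (I.hn t : ℚ) / (I.hd t : ℚ) := div_pos h1' h3''
        exact_mod_cast this
    · intro s hs t ht hst l hl s' hs' t' ht' h1 h2
      lift s to Fin I.n using hs
      lift t to Fin I.n using ht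
      lift s' to Fin I.n using hs'
      lift t' to Fin I.n using ht'
      lift l to Fin I.k using hl
      rw [hNN] at h1 h2
      simp only [C, ext2_apply, decide_eq_true_eq] at hst ⊢
      exact hR1 s t hst l s' t' h1 h2
    · intro i hi
      lift i to Fin I.n using hi
      refine ⟨fun t ht => ?_, fun j hj => ?_⟩
      · lift t to Fin I.n using ht
        rw [hX i 0 (by omega) t, suf_zero]
        rfl
      · have hj' : j < (uu i).length := hj
        have hlen := huu i
        obtain ⟨l, hl1, hl2⟩ := suf_succ (uu i) j hj'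
        have hlab : C.lab i j = l := hl1
        refine ⟨by rw [hlab]; exact l.2, fun t ht => ?_⟩
        lift t to Fin I.n using ht
        rw [hX i (j + 1) (by omega) t, hl2, hlab, Finset.sum_range]
        show ∑ t', NG w P l t t' * XV (NG w P) (suf (uu i) j) t' = _
        refine Finset.sum_congr rfl fun t' _ => ?_
        rw [hNN, hX i j (by omega) t']
    · intro s hs
      lift s to Fin I.n using hs
      have e1 := fun t : Fin I.n => hsumc s t (fun c i => (c i).toNat)
      have e2 := fun t : Fin I.n => hsumc s t (fun c i => (-(c i)).toNat)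
      refine ⟨fun t ht => ?_, ?_⟩
      · lift t to Fin I.n using ht
        have e1' := e1 t
        have e2' := e2 t
        have e3 := hdiff s t
        have e4 := hc2 s t
        refine ⟨?_, fun hst => ?_⟩
        · show ∑ i ∈ Finset.range I.n, (ext2 0 fun (s i : Fin I.n) =>
            if h : (i : ℕ) < r then (-(c s ⟨i, h⟩)).toNat else 0) s i * C.X i (C.len i) t ≤
            ∑ i ∈ Finset.range I.n, (ext2 0 fun (s i : Fin I.n) =>
            if h : (i : ℕ) < r then (c s ⟨i, h⟩).toNat else 0) s i * C.X i (C.len i) t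
          rw [e1', e2']
          omega
        · have hst' : R s t := by
            have : C.R s t = decide (R s t) := by simp only [C, ext2_apply]
            rw [this] at hst
            exact of_decide_eq_true hst
          have e5 := hc4 s t hst'
          show ∑ i ∈ Finset.range I.n, (ext2 0 fun (s i : Fin I.n) =>
            if h : (i : ℕ) < r then (-(c s ⟨i, h⟩)).toNat else 0) s i * C.X i (C.len i) t =
            ∑ i ∈ Finset.range I.n, (ext2 0 fun (s i : Fin I.n) =>
            if h : (i : ℕ) < r then (c s ⟨i, h⟩).toNat else 0) s i * C.X i (C.len i) t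
          rw [e1', e2']
          omega
      · have e1' := e1 s
        have e2' := e2 s
        have e3 := hdiff s s
        have e4 := hc3 s
        show ∑ i ∈ Finset.range I.n, (ext2 0 fun (s i : Fin I.n) =>
            if h : (i : ℕ) < r then (-(c s ⟨i, h⟩)).toNat else 0) s i * C.X i (C.len i) s <
            ∑ i ∈ Finset.range I.n, (ext2 0 fun (s i : Fin I.n) =>
            if h : (i : ℕ) < r then (c s ⟨i, h⟩).toNat else 0) s i * C.X i (C.len i) s
        rw [e1', e2']
        omega
  -- the bounds
  have hlt : ∀ {x e : ℕ}, x ≤ 2 ^ e → e < QQ z → x < 2 ^ QQ z := fun {x e} h1 h2 =>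
    lt_of_le_of_lt h1 (Nat.pow_lt_pow_right (by norm_num) h2)
  have hWD : W * D ≤ 2 ^ (z ^ 5 + (6 * z + 1) * z) := by
    rw [pow_add, mul_comm]
    exact Nat.mul_le_mul hDz hWz
  have hWD1 : 1 ≤ W * D := Nat.mul_pos hw.pos hD0
  have hXle : ∀ (v : List (Fin I.k)), v.length ≤ I.n → ∀ t, XV (NG w P) v t ≤ (W * D) ^ I.n := by
    intro v hv t
    exact (XV_le _ (W * D) hNle v t).trans (Nat.pow_le_pow_right hWD1 hv)
  have hWDn : (W * D) ^ I.n ≤ 2 ^ ((z ^ 5 + (6 * z + 1) * z) * z) := by
    calc (W * D) ^ I.n ≤ (W * D) ^ z := Nat.pow_le_pow_right hWD1 hn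
      _ ≤ (2 ^ (z ^ 5 + (6 * z + 1) * z)) ^ z := Nat.pow_le_pow_left hWD z
      _ = _ := by rw [← pow_mul]
  have hcb : (I.n * (W * D) ^ I.n) ^ I.n ≤ 2 ^ ((z + (z ^ 5 + (6 * z + 1) * z) * z) * z) := by
    have h1 : I.n * (W * D) ^ I.n ≤ 2 ^ (z + (z ^ 5 + (6 * z + 1) * z) * z) := by
      rw [pow_add]
      exact Nat.mul_le_mul (hn.trans Nat.lt_two_pow_self.le) hWDn
    calc (I.n * (W * D) ^ I.n) ^ I.n ≤ (2 ^ (z + (z ^ 5 + (6 * z + 1) * z) * z)) ^ I.n :=
          Nat.pow_le_pow_left h1 _
      _ ≤ (2 ^ (z + (z ^ 5 + (6 * z + 1) * z) * z)) ^ z := Nat.pow_le_pow_right (hpos2 _) hn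
      _ = _ := by rw [← pow_mul]
  have hcabs : ∀ s i, (c s i).toNat ≤ (I.n * (W * D) ^ I.n) ^ I.n ∧
      (-(c s i)).toNat ≤ (I.n * (W * D) ^ I.n) ^ I.n := by
    intro s i
    have h1 := abs_le.mp (hc1 s i)
    have h2 : ((I.n * (W * D) ^ I.n : ℤ) ^ I.n) = (((I.n * (W * D) ^ I.n) ^ I.n : ℕ) : ℤ) := by
      push_cast; ring
    rw [h2] at h1
    omega
  have hq0 := hpos2 (QQ z)
  refine ⟨C, hgood, ?_⟩
  refine
    { w := by
        simp only [C]
        refine ext2_lt _ hq0 fun s a => ?_
        have h1 : w s a ≤ W := by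
          rw [← hw.sum s]
          exact Finset.single_le_sum (f := fun a => w s a) (fun _ _ => Nat.zero_le _)
            (Finset.mem_univ a)
        exact lt_of_le_of_lt h1 (hlt hWz x2)
      w' := fun s a h => by simp only [C]; exact ext2_out _ _ _ _ h
      W := hlt hWz x2
      D := hlt hDz x1
      P := by
        simp only [C]
        exact ext4_lt _ hq0 fun s a l t => lt_of_le_of_lt (hPle s a l t) (hlt hDz x1)
      P' := fun s a l t h => by simp only [C]; exact ext4_out _ _ _ _ _ _ h
      G := by
        simp only [C]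
        exact ext1_lt _ hq0 fun s => lt_of_le_of_lt (hGle s) (hlt hGdz x5)
      G' := fun s h => by simp only [C]; exact ext1_out _ _ _ h
      Gd := hlt hGdz x5
      H := by
        simp only [C]
        exact ext1_lt _ hq0 fun s => lt_of_le_of_lt (hHle s) (hlt hHdz x5)
      H' := fun s h => by simp only [C]; exact ext1_out _ _ _ h
      Hd := hlt hHdz x5
      R' := fun s t h => by simp only [C]; exact ext2_out _ _ _ _ h
      len := huu
      len' := fun i h => by show (uu i).length = 0; rw [huu' i h]; rfl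
      lab := fun i j => by
        show labF (uu i) j ≤ I.k
        by_cases hj : j < (uu i).length
        · obtain ⟨l, hl, -⟩ := suf_succ (uu i) j hj
          rw [hl]
          exact l.2.le
        · rw [labF_out _ _ hj]
          exact Nat.zero_le _
      lab' := fun i j h => by
        show labF (uu i) j = 0
        refine labF_out _ _ fun hj => h ⟨?_, ?_⟩
        · by_contra hi
          rw [huu' i hi] at hj
          simp at hj
        · exact lt_of_lt_of_le hj (huu i)
      X := by
        simp only [C]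
        exact ext3_lt _ hq0 fun i j t =>
          hlt ((hXle _ ((length_suf_le _ _).trans (huu i)) t).trans hWDn) x3
      X' := fun i j t h => by simp only [C]; exact ext3_out _ _ _ _ _ h
      cp := by
        simp only [C]
        refine ext2_lt _ hq0 fun s i => ?_
        split_ifs with h
        · exact hlt ((hcabs s _).1.trans hcb) x4
        · exact hq0
      cp' := fun s i h => by simp only [C]; exact ext2_out _ _ _ _ h
      cq := by
        simp only [C]
        refine ext2_lt _ hq0 fun s i => ?_
        split_ifs with h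
        · exact hlt ((hcabs s _).2.trans hcb) x4
        · exact hq0
      cq' := fun s i h => by simp only [C]; exact ext2_out _ _ _ _ h }

end Pool.Agent.H79.DO
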