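import Pool.Agent.H79.DO.Stmts

/-!
# Auxiliary lemmas for the completeness
-/

set_option autoImplicit false

namespace Pool.Agent.H79.DO

/-- Extension of a function by a default value. -/
def ext1 {β : Type} {n : ℕ} (d : β) (f : Fin n → β) (i : ℕ) : β := if h : i < n then f ⟨i, h⟩ else d

/-- Extension of a function by a default value. -/
def ext2 {β : Type} {n m : ℕ} (d : β) (f : Fin n → Fin m → β) (i j : ℕ) : β :=
  if h : i < n ∧ j < m then f ⟨i, h.1⟩ ⟨j, h.2⟩ else d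

/-- Extension of a function by a default value. -/
def ext3 {β : Type} {n m k : ℕ} (d : β) (f : Fin n → Fin m → Fin k → β) (i j l : ℕ) : β :=
  if h : i < n ∧ j < m ∧ l < k then f ⟨i, h.1⟩ ⟨j, h.2.1⟩ ⟨l, h.2.2⟩ else d

/-- Extension of a function by a default value. -/
def ext4 {β : Type} {n m k p : ℕ} (d : β) (f : Fin n → Fin m → Fin k → Fin p → β) (i j l t : ℕ) : β :=
  if h : i < n ∧ j < m ∧ l < k ∧ t < p then f ⟨i, h.1⟩ ⟨j, h.2.1⟩ ⟨l, h.2.2.1⟩ ⟨t, h.2.2.2⟩ else d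

@[simp] lemma ext1_apply {β : Type} {n : ℕ} (d : β) (f : Fin n → β) (i : Fin n) :
    ext1 d f i = f i := by simp [ext1]

@[simp] lemma ext2_apply {β : Type} {n m : ℕ} (d : β) (f : Fin n → Fin m → β) (i : Fin n)
    (j : Fin m) : ext2 d f i j = f i j := by simp [ext2]

@[simp] lemma ext3_apply {β : Type} {n m k : ℕ} (d : β) (f : Fin n → Fin m → Fin k → β) (i : Fin n)
    (j : Fin m) (l : Fin k) : ext3 d f i j l = f i j l := by simp [ext3]

@[simp] lemma ext4_apply {β : Type} {n m k p : ℕ} (d : β) (f : Fin n → Fin m → Fin k → Fin p → β)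
    (i : Fin n) (j : Fin m) (l : Fin k) (t : Fin p) : ext4 d f i j l t = f i j l t := by simp [ext4]

lemma ext1_out {β : Type} {n : ℕ} (d : β) (f : Fin n → β) (i : ℕ) (h : ¬ i < n) :
    ext1 d f i = d := dif_neg h

lemma ext2_out {β : Type} {n m : ℕ} (d : β) (f : Fin n → Fin m → β) (i j : ℕ)
    (h : ¬ (i < n ∧ j < m)) : ext2 d f i j = d := dif_neg h

lemma ext3_out {β : Type} {n m k : ℕ} (d : β) (f : Fin n → Fin m → Fin k → β) (i j l : ℕ)
    (h : ¬ (i < n ∧ j < m ∧ l < k)) : ext3 d f i j l = d := dif_neg h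

lemma ext4_out {β : Type} {n m k p : ℕ} (d : β) (f : Fin n → Fin m → Fin k → Fin p → β)
    (i j l t : ℕ) (h : ¬ (i < n ∧ j < m ∧ l < k ∧ t < p)) : ext4 d f i j l t = d := dif_neg h

lemma ext1_lt {n B : ℕ} (f : Fin n → ℕ) (hB : 0 < B) (h : ∀ i, f i < B) (i : ℕ) :
    ext1 0 f i < B := by
  unfold ext1; split_ifs
  · exact h _
  · exact hB

lemma ext2_lt {n m B : ℕ} (f : Fin n → Fin m → ℕ) (hB : 0 < B) (h : ∀ i j, f i j < B) (i j : ℕ) :
    ext2 0 f i j < B := by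
  unfold ext2; split_ifs
  · exact h _ _
  · exact hB

lemma ext3_lt {n m k B : ℕ} (f : Fin n → Fin m → Fin k → ℕ) (hB : 0 < B)
    (h : ∀ i j l, f i j l < B) (i j l : ℕ) : ext3 0 f i j l < B := by
  unfold ext3; split_ifs
  · exact h _ _ _
  · exact hB

lemma ext4_lt {n m k p B : ℕ} (f : Fin n → Fin m → Fin k → Fin p → ℕ) (hB : 0 < B)
    (h : ∀ i j l t, f i j l t < B) (i j l t : ℕ) : ext4 0 f i j l t < B := by
  unfold ext4; split_ifs
  · exact h _ _ _ _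
  · exact hB

/-- Common denominators. -/
lemma common_den {ι : Type} [Fintype ι] (num den : ι → ℕ) (hpos : ∀ i, 0 < den i) (z : ℕ)
    (hz : ∀ i, den i < 2 ^ z) :
    ∃ D : ℕ, 0 < D ∧ D ≤ 2 ^ (z * Fintype.card ι) ∧ ∃ P : ι → ℕ, ∀ i, P i * den i = num i * D := by
  classical
  refine ⟨∏ i, den i, Finset.prod_pos fun i _ => hpos i, ?_, fun i => num i * ∏ j ∈ Finset.univ.erase i, den j, ?_⟩
  · calc ∏ i, den i ≤ ∏ _i : ι, 2 ^ z := Finset.prod_le_prod' fun i _ => (hz i).le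
      _ = 2 ^ (z * Fintype.card ι) := by
        rw [Finset.prod_const, Finset.card_univ, ← pow_mul]
  · intro i
    rw [mul_assoc, Finset.prod_erase_mul _ _ (Finset.mem_univ i)]

lemma frac_eq_of {P den num D : ℕ} (hd : 0 < den) (hD : 0 < D) (h : P * den = num * D) :
    (num : ℚ) / den = (P : ℚ) / D := by
  have hd' : (den : ℚ) ≠ 0 := by positivity
  have hD' : (D : ℚ) ≠ 0 := by positivity
  rw [div_eq_div_iff hd' hD']
  have : (P : ℚ) * den = num * D := by exact_mod_cast h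
  rw [this]

/-- Sums over an initial segment. -/
lemma sum_range_ext {r n : ℕ} (hr : r ≤ n) (f : Fin r → ℕ) :
    ∑ i ∈ Finset.range n, (if h : i < r then f ⟨i, h⟩ else 0) = ∑ i, f i := by
  have h1 : ∑ i ∈ Finset.range n, (if h : i < r then f ⟨i, h⟩ else 0) =
      ∑ i ∈ Finset.range r, (if h : i < r then f ⟨i, h⟩ else 0) := by
    symm
    refine Finset.sum_subset (fun i hi => ?_) fun i _ hi => ?_
    · rw [Finset.mem_range] at hi ⊢; omega
    · rw [Finset.mem_range] at hi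
      rw [dif_neg hi]
  rw [h1, Finset.sum_range]
  refine Finset.sum_congr rfl fun i _ => ?_
  rw [dif_pos i.2]

lemma XV_le {S L : Type} [Fintype S] (N : L → S → S → ℕ) (B : ℕ) (h : ∀ l s, ∑ t, N l s t ≤ B)
    (u : List L) (s : S) : XV N u s ≤ B ^ u.length := by
  induction u generalizing s with
  | nil => simp [XV]
  | cons l u ih =>
    rw [XV, List.length_cons, pow_succ, mul_comm]
    calc ∑ t, N l s t * XV N u t ≤ ∑ t, N l s t * B ^ u.length :=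
          Finset.sum_le_sum fun t _ => Nat.mul_le_mul_left _ (ih t)
      _ = (∑ t, N l s t) * B ^ u.length := by rw [Finset.sum_mul]
      _ ≤ B * B ^ u.length := Nat.mul_le_mul_right _ (h l s)

lemma toNat_sub (c : ℤ) : ((c.toNat : ℕ) : ℤ) - ((-c).toNat : ℕ) = c := by omega

lemma exp_bounds (z : ℕ) : z ^ 5 < QQ z ∧ (6 * z + 1) * z < QQ z ∧
    (z ^ 5 + (6 * z + 1) * z) * z < QQ z ∧
    (z + (z ^ 5 + (6 * z + 1) * z) * z) * z < QQ z ∧ z * z < QQ z := by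
  have h : ∀ j, j ≤ 8 → z ^ j ≤ (z + 1) ^ 8 := fun j hj =>
    (Nat.pow_le_pow_left (Nat.le_succ z) j).trans (Nat.pow_le_pow_right (Nat.succ_pos z) hj)
  have h1 := h 1 (by norm_num)
  have h2 := h 2 (by norm_num)
  have h3 := h 3 (by norm_num)
  have h4 := h 4 (by norm_num)
  have h5 := h 5 (by norm_num)
  have h6 := h 6 (by norm_num)
  have h7 := h 7 (by norm_num)
  have h0 : 0 < (z + 1) ^ 8 := by positivity
  have e1 : (6 * z + 1) * z = 6 * z ^ 2 + z ^ 1 := by ring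
  have e2 : (z ^ 5 + (6 * z + 1) * z) * z = z ^ 6 + 6 * z ^ 3 + z ^ 2 := by ring
  have e3 : (z + (z ^ 5 + (6 * z + 1) * z) * z) * z = z ^ 2 + z ^ 7 + 6 * z ^ 4 + z ^ 3 := by ring
  have e4 : z * z = z ^ 2 := by ring
  unfold QQ
  rw [e3, e2, e1, e4]
  generalize (z + 1) ^ 8 = Y at *
  generalize z ^ 1 = a1 at *
  generalize z ^ 2 = a2 at *
  generalize z ^ 3 = a3 at *
  generalize z ^ 4 = a4 at *
  generalize z ^ 5 = a5 at *
  generalize z ^ 6 = a6 at *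
  generalize z ^ 7 = a7 at *
  refine ⟨?_, ?_, ?_, ?_, ?_⟩ <;> omega

lemma W_bound {n m z : ℕ} (hn : n ≤ z) (hm : m ≤ z) :
    (m * (4 ^ n * n ^ 3 + 1)) ^ n ≤ 2 ^ ((6 * z + 1) * z) := by
  have h1 : m ≤ 2 ^ z := hm.trans Nat.lt_two_pow_self.le
  have h2 : (4 : ℕ) ^ n ≤ 2 ^ (2 * z) := by
    calc (4 : ℕ) ^ n = 2 ^ (2 * n) := by rw [pow_mul]; norm_num
      _ ≤ 2 ^ (2 * z) := Nat.pow_le_pow_right (by norm_num) (by omega)
  have h3 : n ^ 3 ≤ 2 ^ (3 * z) := by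
    calc n ^ 3 ≤ (2 ^ z) ^ 3 := Nat.pow_le_pow_left (hn.trans Nat.lt_two_pow_self.le) 3
      _ = 2 ^ (3 * z) := by rw [← pow_mul, mul_comm]
  have h4 : 4 ^ n * n ^ 3 + 1 ≤ 2 ^ (5 * z + 1) := by
    have h5 : 4 ^ n * n ^ 3 ≤ 2 ^ (5 * z) := by
      calc 4 ^ n * n ^ 3 ≤ 2 ^ (2 * z) * 2 ^ (3 * z) := Nat.mul_le_mul h2 h3
        _ = 2 ^ (5 * z) := by rw [← pow_add]; congr 1; ring
    have h6 : 1 ≤ 2 ^ (5 * z) := Nat.one_le_two_pow
    have h7 : 2 ^ (5 * z + 1) = 2 ^ (5 * z) * 2 := pow_succ 2 (5 * z)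
    rw [h7]; omega
  calc (m * (4 ^ n * n ^ 3 + 1)) ^ n ≤ (2 ^ z * 2 ^ (5 * z + 1)) ^ n :=
        Nat.pow_le_pow_left (Nat.mul_le_mul h1 h4) n
    _ = 2 ^ ((6 * z + 1) * n) := by rw [← pow_add, ← pow_mul]; congr 1; ring
    _ ≤ 2 ^ ((6 * z + 1) * z) := Nat.pow_le_pow_right (by norm_num) (Nat.mul_le_mul_left _ hn)

end Pool.Agent.H79.DO
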