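import Mathlib
import Pool.Prelude.Def_H_3587d628
import Pool.Agent.H83.LMDPDefs

/-!
# The distance-one problem as a language
-/

set_option autoImplicit false

namespace Pool.Agent.H79.DO

open Pool.Agent.H83 N68a2faeb N487b59b3

/-- The data of an input: for every state the list of all actions, each given by a bit (is the action
enabled in this state?) and a table (one row for every label, one column for every state) of
fractions; then two lists of fractions (one for every state). A fraction is a pair
(numerator, denominator) of natural numbers. -/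
abbrev Data := List (List (Bool × List (List (ℕ × ℕ)))) × (List (ℕ × ℕ) × List (ℕ × ℕ))

/-- The data with given entries, for `n` states, `m` actions and `k` labels. -/
def mkData {n m k : ℕ} (en : Fin n → Fin m → Bool) (f : Fin n → Fin m → Fin k → Fin n → ℕ × ℕ)
    (g h : Fin n → ℕ × ℕ) : Data :=
  (List.ofFn fun s => List.ofFn fun a => (en s a, List.ofFn fun ℓ => List.ofFn fun t => f s a ℓ t),
    (List.ofFn g, List.ofFn h))

/-- `p` is a fraction for the rational number `q`. -/
def IsFrac (p : ℕ × ℕ) (q : ℚ) : Prop := 0 < p.2 ∧ q = (p.1 : ℚ) / (p.2 : ℚ)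

/-- The bit string `x` describes the labelled MDP `M` (with states `Fin n`, actions `Fin m`, labels
`Fin k`) and the initial distributions `μ` and `ν`: it is the binary code of the table of
fractions of all transition probabilities and of the two distributions. -/
def Describes (x : List Bool) {n m k : ℕ} (M : LMDP (Fin n) (Fin m) (Fin k)) (μ ν : Fin n → ℚ) :
    Prop :=
  ∃ (f : Fin n → Fin m → Fin k → Fin n → ℕ × ℕ) (g h : Fin n → ℕ × ℕ),
    (∀ s, ∀ a ∈ M.enabled s, ∀ ℓ t, IsFrac (f s a ℓ t) (M.prob s a (ℓ, t))) ∧
    (∀ s, IsFrac (g s) (μ s)) ∧ (∀ s, IsFrac (h s) (ν s)) ∧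
    x = bitEncode (mkData (fun s a => decide (a ∈ M.enabled s)) f g h)

/-- Some memoryless strategy achieves total variation distance one. -/
def HasDistanceOne {n m k : ℕ} (M : LMDP (Fin n) (Fin m) (Fin k)) (μ ν : Fin n → ℚ) : Prop :=
  ∃ σ : Strategy M, tvDist (M.labelLaw σ fun s => (μ s : ℝ)) (M.labelLaw σ fun s => (ν s : ℝ)) = 1

open Classical in
/-- The distance-one problem. -/
noncomputable def distanceOne : DecisionProblem := fun x =>
  decide (∃ (n m k : ℕ) (M : LMDP (Fin n) (Fin m) (Fin k)) (μ ν : Fin n → ℚ),
    IsDist (fun s => (μ s : ℝ)) ∧ IsDist (fun s => (ν s : ℝ)) ∧ Describes x M μ ν ∧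
      HasDistanceOne M μ ν)

end Pool.Agent.H79.DO
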