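import Pool.Agent.H79.DO.Stmts

/-!
# Assembly
-/

set_option autoImplicit false

namespace Pool.Agent.H79.DO

open Pool.Agent.H83 N68a2faeb N487b59b3 TMLib Polynomial

theorem final (hDEC : DEC) (hWF : WF) (hSZB : SZB) (hCTAB : CTAB) (hCHK : CHK) (hS : SOUND)
    (hC : COMPL) : FINAL := by
  obtain ⟨hdec, henc, -, -, -⟩ := hDEC
  obtain ⟨⟨Vg, hVg, hVg'⟩, ⟨Vr, hVr, hVr'⟩⟩ := hCHK
  obtain ⟨Q, hQ⟩ := hCTAB
  obtain ⟨B, hB⟩ := hdec.exists_size_le
  let B' : ℕ[X] := B.comp (1 + 4 * X)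
  have hB' : ∀ x : List Bool, sz (dec x) ≤ B'.eval x.length := by
    intro x
    refine (hB x).trans ?_
    have e1 : B'.eval x.length = B.eval (1 + 4 * x.length) := by
      simp [B']
    rw [e1]
    exact eval_mono B (sz_bits_le x)
  refine mem_NP_cert (β := CT)
    (V := fun x c => decide (encB (dec x) = x) && (Vr (dec x) && Vg (dec x, c))) ?_
    (Q.comp (3 * B' + 100 * (B' + 1) ^ 8)) ?_ ?_
  · refine PTime.and ?_ (PTime.and ?_ ?_)
    · refine PTime.eq ?_ (PTime.fst PTime.id)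
      exact henc.comp (hdec.comp (PTime.fst PTime.id))
    · exact hVr.comp (hdec.comp (PTime.fst PTime.id))
    · exact hVg.comp (PTime.pair (hdec.comp (PTime.fst PTime.id)) (PTime.snd PTime.id))
  · intro x c h
    simp only [Bool.and_eq_true, decide_eq_true_eq] at h
    obtain ⟨h1, h2, h3⟩ := h
    rw [hWF x]
    exact ⟨h1, (hVr' _).1 h2, hS _ _ ((hVg' (dec x, c)).1 h3)⟩
  · intro x hx
    rw [hWF x] at hx
    obtain ⟨h1, h2, h3⟩ := hx
    obtain ⟨b1, b2, b3, b4⟩ := hSZB (dec x)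
    obtain ⟨c, hc1, hc2⟩ := hC (readI (dec x)) (sz (dec x)) b1 b2 b3 b4 h3
    obtain ⟨ct, hct1, hct2⟩ := hQ c _ _ _ _ hc2
    refine ⟨ct, ?_, ?_⟩
    · refine hct1.trans ?_
      rw [eval_comp]
      refine eval_mono Q ?_
      have e3 : (3 : ℕ[X]) = C 3 := rfl
      have e100 : (100 : ℕ[X]) = C 100 := rfl
      simp only [eval_add, eval_mul, eval_pow, eval_one, e3, e100, eval_C]
      have h4 := hB' x
      have h5 : QQ (sz (dec x)) ≤ 100 * (eval x.length B' + 1) ^ 8 := by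
        unfold QQ
        exact Nat.mul_le_mul_left _ (Nat.pow_le_pow_left (by omega) 8)
      have e1 : (readI (dec x)).n = nB (dec x) := rfl
      have e2 : (readI (dec x)).m = mB (dec x) := rfl
      have e3' : (readI (dec x)).k = kB (dec x) := rfl
      rw [e1, e2, e3']
      omega
    · simp only [Bool.and_eq_true, decide_eq_true_eq]
      refine ⟨h1, (hVr' _).2 h2, (hVg' (dec x, ct)).2 ?_⟩
      show Good (readI (dec x)) (readC ct)
      rw [hct2]
      exact hc1

end Pool.Agent.H79.DO
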