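import Pool.Agent.H79.DO.Defs
import Pool.Agent.H83.Witness
import Pool.Agent.H74.PPADDec
import Pool.Agent.TM.Cert

/-!
# Project DO: the distance-one problem is in NP. Statements of the modules
-/

set_option autoImplicit false

namespace Pool.Agent.H79.DO

open Pool.Agent.H83 N68a2faeb N487b59b3 TMLib Matrix
open Pool.Agent.H74.PPAD (num addB mulB ltB strip unblk unblks decP decL)

/-! ### A. Calculus of polynomial time predicates -/

/-- Functions with values in `ℕ` computed in polynomial time, the value being written in binary. -/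
def PN {α : Type} [Enc α] (f : α → ℕ) : Prop := ∃ g : α → List Bool, PTime g ∧ ∀ x, num (g x) = f x

/-- Predicates decided in polynomial time. -/
def PD {α : Type} [Enc α] (P : α → Prop) : Prop :=
  ∃ V : α → Bool, PTime V ∧ ∀ x, V x = true ↔ P x

/-- Closure of `PN` under bounded sums (the bound being given in unary). -/
def PNSUM : Prop := ∀ (α : Type) [Enc α] (f : α → ℕ → ℕ) (n : α → ℕ),
  PN (fun p : α × ℕ => f p.1 p.2) → PTime n → PN (fun x => ∑ i ∈ Finset.range (n x), f x i)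

/-- Closure of `PN` under addition, multiplication, composition and constants; unary numbers. -/
def PNALG : Prop := ∀ (α β : Type) [Enc α] [Enc β],
  (∀ f g : α → ℕ, PN f → PN g → PN (fun x => f x + g x)) ∧
  (∀ f g : α → ℕ, PN f → PN g → PN (fun x => f x * g x)) ∧
  (∀ (f : β → ℕ) (g : α → β), PN f → PTime g → PN (fun x => f (g x))) ∧
  (∀ c : ℕ, PN (fun _ : α => c)) ∧
  (∀ g : α → List Bool, PTime g → PN (fun x => num (g x))) ∧
  (∀ g : α → ℕ, PTime g → PN g)

/-- Closure of `PD`. -/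
def PDALG : Prop := ∀ (α β : Type) [Enc α] [Enc β],
  (∀ P Q : α → Prop, PD P → PD Q → PD (fun x => P x ∧ Q x)) ∧
  (∀ P Q : α → Prop, PD P → PD Q → PD (fun x => P x ∨ Q x)) ∧
  (∀ P Q : α → Prop, PD P → PD Q → PD (fun x => P x → Q x)) ∧
  (∀ P : α → Prop, PD P → PD (fun x => ¬ P x)) ∧
  (∀ (P : β → Prop) (g : α → β), PD P → PTime g → PD (fun x => P (g x))) ∧
  (∀ (P : α → ℕ → Prop) (n : α → ℕ), PD (fun p : α × ℕ => P p.1 p.2) → PTime n →
    PD (fun x => ∀ i, i < n x → P x i)) ∧
  (∀ g : α → Bool, PTime g → PD (fun x => g x = true)) ∧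
  (∀ g : α → Bool, PTime g → PD (fun x => g x = false)) ∧
  (∀ f g : α → ℕ, PN f → PN g → PD (fun x => f x = g x)) ∧
  (∀ f g : α → ℕ, PN f → PN g → PD (fun x => f x ≤ g x)) ∧
  (∀ f g : α → ℕ, PN f → PN g → PD (fun x => f x < g x)) ∧
  (∀ f g : α → List Bool, PTime f → PTime g → PD (fun x => f x = g x))

/-! ### B. Reading the input -/

/-- The data with all numbers given by bit lists. -/
abbrev BData := List (List (Bool × List (List (List Bool × List Bool)))) ×
  (List (List Bool × List Bool) × List (List Bool × List Bool))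

/-- From numbers to bit lists. -/
def toF (p : ℕ × ℕ) : List Bool × List Bool := (p.1.bits, p.2.bits)
/-- From numbers to bit lists. -/
def toB (d : Data) : BData :=
  (d.1.map fun r => r.map fun a => (a.1, a.2.map fun t => t.map toF), (d.2.1.map toF, d.2.2.map toF))

/-- From bit lists to numbers. -/
def ofF (p : List Bool × List Bool) : ℕ × ℕ := (num p.1, num p.2)
/-- From bit lists to numbers. -/
def ofB (b : BData) : Data :=
  (b.1.map fun r => r.map fun a => (a.1, a.2.map fun t => t.map ofF), (b.2.1.map ofF, b.2.2.map ofF))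

/-- Decoding: for every string `x` some data `dec x`. -/
def dec : List Bool → BData :=
  decP (decL (decL (decP (fun z => z.headD false) (decL (decL (decP (fun z => z) fun z => z))))))
    (decP (decL (decP (fun z => z) fun z => z)) (decL (decP (fun z => z) fun z => z)))

/-- Writing of a pair. -/
def encP {α β : Type} (f : α → List Bool) (g : β → List Bool) (p : α × β) : List Bool :=
  delimit (f p.1) ++ g p.2
/-- Writing of a list. -/
def encL {α : Type} (f : α → List Bool) (l : List α) : List Bool := (l.map fun a => delimit (f a)).flatten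

/-- Writing of the data. -/
def encB : BData → List Bool :=
  encP (encL (encL (encP (fun b => [b]) (encL (encL (encP strip strip))))))
    (encP (encL (encP strip strip)) (encL (encP strip strip)))

/-- Module DEC. -/
def DEC : Prop := PTime dec ∧ PTime encB ∧ (∀ d : Data, dec (bitEncode d) = toB d) ∧
  (∀ b : BData, encB b = bitEncode (ofB b)) ∧ (∀ d : Data, ofB (toB d) = d)

/-! ### C. Instances in terms of functions -/

/-- An instance of the problem: numbers of states, actions and labels, enabled actions, numerators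
and denominators (of the transition probabilities and of the two distributions). -/
structure Inst where
  n : ℕ
  m : ℕ
  k : ℕ
  en : ℕ → ℕ → Bool
  fn : ℕ → ℕ → ℕ → ℕ → ℕ
  fd : ℕ → ℕ → ℕ → ℕ → ℕ
  gn : ℕ → ℕ
  gd : ℕ → ℕ
  hn : ℕ → ℕ
  hd : ℕ → ℕ

/-- `I` describes the labelled MDP `M` and the distributions `μ`, `ν`. -/
structure Inst.Desc (I : Inst) (M : LMDP (Fin I.n) (Fin I.m) (Fin I.k)) (μ ν : Fin I.n → ℚ) :
    Prop where
  en : ∀ (s : Fin I.n) (a : Fin I.m), a ∈ M.enabled s ↔ I.en s a = true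
  prob : ∀ (s : Fin I.n), ∀ a ∈ M.enabled s, ∀ (l : Fin I.k) (t : Fin I.n),
    IsFrac (I.fn s a l t, I.fd s a l t) (M.prob s a (l, t))
  mu : ∀ s : Fin I.n, IsFrac (I.gn s, I.gd s) (μ s)
  nu : ∀ s : Fin I.n, IsFrac (I.hn s, I.hd s) (ν s)

/-- The yes-instances. -/
def Inst.Yes (I : Inst) : Prop :=
  ∃ (M : LMDP (Fin I.n) (Fin I.m) (Fin I.k)) (μ ν : Fin I.n → ℚ),
    IsDist (fun s => (μ s : ℝ)) ∧ IsDist (fun s => (ν s : ℝ)) ∧ I.Desc M μ ν ∧ HasDistanceOne M μ ν

/-- The number of states of some data. -/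
def nB (b : BData) : ℕ := b.1.length
/-- The number of actions of some data. -/
def mB (b : BData) : ℕ := (b.1.getD 0 []).length
/-- The number of labels of some data. -/
def kB (b : BData) : ℕ := ((b.1.getD 0 []).getD 0 (false, [])).2.length
/-- The bit of an action. -/
def enB (b : BData) (s a : ℕ) : Bool := ((b.1.getD s []).getD a (false, [])).1
/-- The fraction in the table. -/
def frB (b : BData) (s a l t : ℕ) : List Bool × List Bool :=
  ((((b.1.getD s []).getD a (false, [])).2.getD l []).getD t ([], []))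

/-- The instance of some data. -/
def readI (b : BData) : Inst where
  n := nB b
  m := mB b
  k := kB b
  en := enB b
  fn := fun s a l t => num (frB b s a l t).1
  fd := fun s a l t => num (frB b s a l t).2
  gn := fun s => num (b.2.1.getD s ([], [])).1
  gd := fun s => num (b.2.1.getD s ([], [])).2
  hn := fun s => num (b.2.2.getD s ([], [])).1
  hd := fun s => num (b.2.2.getD s ([], [])).2

/-- All tables have the right shape. -/
def Rect (b : BData) : Prop :=
  (∀ s, s < nB b → (b.1.getD s []).length = mB b ∧ ∀ a, a < mB b →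
    ((b.1.getD s []).getD a (false, [])).2.length = kB b ∧ ∀ l, l < kB b →
      (((b.1.getD s []).getD a (false, [])).2.getD l []).length = nB b) ∧
  b.2.1.length = nB b ∧ b.2.2.length = nB b

/-- Module WF: the language in terms of the decoded data. -/
def WF : Prop := ∀ x : List Bool,
  distanceOne x = true ↔ encB (dec x) = x ∧ Rect (dec x) ∧ (readI (dec x)).Yes

/-! ### D. Certificates in terms of functions -/

/-- A certificate: `w` integer weights of the actions with sum `W` in every state; `P` numerators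
of the transition probabilities over the common denominator `D`; `G`, `H` numerators of the two
distributions over common denominators; `R` a relation on the states; chains number `i = 0 .. n-1`
of vectors `X i 0, ..., X i (len i)`, where `X i 0 = 1` and `X i (j+1)` is the matrix of the label
`lab i j` applied to `X i j`; for every state `s` coefficients `cp s i - cq s i` of `X i (len i)`. -/
structure NCert where
  w : ℕ → ℕ → ℕ
  W : ℕ
  D : ℕ
  P : ℕ → ℕ → ℕ → ℕ → ℕ
  G : ℕ → ℕ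
  Gd : ℕ
  H : ℕ → ℕ
  Hd : ℕ
  R : ℕ → ℕ → Bool
  len : ℕ → ℕ
  lab : ℕ → ℕ → ℕ
  X : ℕ → ℕ → ℕ → ℕ
  cp : ℕ → ℕ → ℕ
  cq : ℕ → ℕ → ℕ

/-- The entries of the integer matrices. -/
def NN (m : ℕ) (c : NCert) (l s t : ℕ) : ℕ := ∑ a ∈ Finset.range m, c.w s a * c.P s a l t

/-- The certificate `c` is valid for the instance `I`. -/
def Good (I : Inst) (c : NCert) : Prop :=
  -- common denominators; the transition probabilities of the enabled actions sum up to one
  (0 < c.D ∧ ∀ s, s < I.n → ∀ a, a < I.m → I.en s a = true →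
    (∀ l, l < I.k → ∀ t, t < I.n → 0 < I.fd s a l t ∧ c.P s a l t * I.fd s a l t = I.fn s a l t * c.D) ∧
    ∑ l ∈ Finset.range I.k, ∑ t ∈ Finset.range I.n, c.P s a l t = c.D) ∧
  -- the two initial distributions
  (0 < c.Gd ∧ (∀ s, s < I.n → 0 < I.gd s ∧ c.G s * I.gd s = I.gn s * c.Gd) ∧
    ∑ s ∈ Finset.range I.n, c.G s = c.Gd) ∧
  (0 < c.Hd ∧ (∀ s, s < I.n → 0 < I.hd s ∧ c.H s * I.hd s = I.hn s * c.Hd) ∧
    ∑ s ∈ Finset.range I.n, c.H s = c.Hd) ∧
  -- the weights
  (0 < c.W ∧ ∀ s, s < I.n → (∀ a, a < I.m → I.en s a = false → c.w s a = 0) ∧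
    ∑ a ∈ Finset.range I.m, c.w s a = c.W) ∧
  -- the relation
  ((∀ s, s < I.n → ∀ t, t < I.n → 0 < I.gn s → 0 < I.hn t → c.R s t = true) ∧
    ∀ s, s < I.n → ∀ t, t < I.n → c.R s t = true → ∀ l, l < I.k → ∀ s', s' < I.n → ∀ t', t' < I.n →
      0 < NN I.m c l s s' → 0 < NN I.m c l t t' → c.R s' t' = true) ∧
  -- the chains
  (∀ i, i < I.n → (∀ t, t < I.n → c.X i 0 t = 1) ∧ ∀ j, j < c.len i → c.lab i j < I.k ∧
    ∀ t, t < I.n → c.X i (j + 1) t = ∑ t' ∈ Finset.range I.n, NN I.m c (c.lab i j) t t' * c.X i j t') ∧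
  -- the separating vectors
  (∀ s, s < I.n →
    (∀ t, t < I.n → ∑ i ∈ Finset.range I.n, c.cq s i * c.X i (c.len i) t ≤
        ∑ i ∈ Finset.range I.n, c.cp s i * c.X i (c.len i) t ∧
      (c.R s t = true → ∑ i ∈ Finset.range I.n, c.cq s i * c.X i (c.len i) t =
        ∑ i ∈ Finset.range I.n, c.cp s i * c.X i (c.len i) t)) ∧
    ∑ i ∈ Finset.range I.n, c.cq s i * c.X i (c.len i) s <
      ∑ i ∈ Finset.range I.n, c.cp s i * c.X i (c.len i) s)

/-- All numbers of the certificate are smaller than `2 ^ q`, and they are zero outside the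
ranges. -/
structure NCert.Bdd (c : NCert) (n m k q : ℕ) : Prop where
  w : ∀ s a, c.w s a < 2 ^ q
  w' : ∀ s a, ¬ (s < n ∧ a < m) → c.w s a = 0
  W : c.W < 2 ^ q
  D : c.D < 2 ^ q
  P : ∀ s a l t, c.P s a l t < 2 ^ q
  P' : ∀ s a l t, ¬ (s < n ∧ a < m ∧ l < k ∧ t < n) → c.P s a l t = 0
  G : ∀ s, c.G s < 2 ^ q
  G' : ∀ s, ¬ s < n → c.G s = 0
  Gd : c.Gd < 2 ^ q
  H : ∀ s, c.H s < 2 ^ q
  H' : ∀ s, ¬ s < n → c.H s = 0
  Hd : c.Hd < 2 ^ q
  R' : ∀ s t, ¬ (s < n ∧ t < n) → c.R s t = false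
  len : ∀ i, c.len i ≤ n
  len' : ∀ i, ¬ i < n → c.len i = 0
  lab : ∀ i j, c.lab i j ≤ k
  lab' : ∀ i j, ¬ (i < n ∧ j < n) → c.lab i j = 0
  X : ∀ i j t, c.X i j t < 2 ^ q
  X' : ∀ i j t, ¬ (i < n ∧ j < n + 1 ∧ t < n) → c.X i j t = 0
  cp : ∀ s i, c.cp s i < 2 ^ q
  cp' : ∀ s i, ¬ (s < n ∧ i < n) → c.cp s i = 0
  cq : ∀ s i, c.cq s i < 2 ^ q
  cq' : ∀ s i, ¬ (s < n ∧ i < n) → c.cq s i = 0

/-- All numbers of the instance are smaller than `2 ^ b`. -/
structure Inst.Bdd (I : Inst) (b : ℕ) : Prop where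
  fd : ∀ s a l t, I.fd s a l t < 2 ^ b
  gd : ∀ s, I.gd s < 2 ^ b
  hd : ∀ s, I.hd s < 2 ^ b

/-- A polynomial bound for the number of bits. -/
def QQ (z : ℕ) : ℕ := 100 * (z + 1) ^ 8

/-- Module SOUND. -/
def SOUND : Prop := ∀ (I : Inst) (c : NCert), Good I c → I.Yes

/-- Module COMPL. -/
def COMPL : Prop := ∀ (I : Inst) (z : ℕ), I.n ≤ z → I.m ≤ z → I.k ≤ z → I.Bdd z → I.Yes →
  ∃ c : NCert, Good I c ∧ c.Bdd I.n I.m I.k (QQ z)

/-! ### E. Certificates as lists -/

/-- The type of the certificates. -/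
abbrev CT := (List (List (List Bool)) × List Bool × List Bool) ×
  List (List (List (List (List Bool)))) ×
  (List (List Bool) × List Bool) × (List (List Bool) × List Bool) ×
  List (List Bool) × (List ℕ × List (List ℕ)) × List (List (List (List Bool))) ×
  List (List (List Bool)) × List (List (List Bool))

/-- Reading of a certificate. -/
def readC (c : CT) : NCert where
  w := fun s a => num ((c.1.1.getD s []).getD a [])
  W := num c.1.2.1
  D := num c.1.2.2
  P := fun s a l t => num ((((c.2.1.getD s []).getD a []).getD l []).getD t [])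
  G := fun s => num (c.2.2.1.1.getD s [])
  Gd := num c.2.2.1.2
  H := fun s => num (c.2.2.2.1.1.getD s [])
  Hd := num c.2.2.2.1.2
  R := fun s t => (c.2.2.2.2.1.getD s []).getD t false
  len := fun i => c.2.2.2.2.2.1.1.getD i 0
  lab := fun i j => (c.2.2.2.2.2.1.2.getD i []).getD j 0
  X := fun i j t => num (((c.2.2.2.2.2.2.1.getD i []).getD j []).getD t [])
  cp := fun s i => num ((c.2.2.2.2.2.2.2.1.getD s []).getD i [])
  cq := fun s i => num ((c.2.2.2.2.2.2.2.2.getD s []).getD i [])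

/-- Module CHK: the verifier works in polynomial time. -/
def CHK : Prop := PD (fun p : BData × CT => Good (readI p.1) (readC p.2)) ∧ PD Rect

/-- Module CTAB: certificates with small numbers are small. -/
def CTAB : Prop := ∃ Q : Polynomial ℕ, ∀ (c : NCert) (n m k q : ℕ), c.Bdd n m k q →
  ∃ ct : CT, sz ct ≤ Q.eval (n + m + k + q) ∧ readC ct = c

/-- Module SZB: bounds for the instance of some data. -/
def SZB : Prop := ∀ b : BData, nB b ≤ sz b ∧ mB b ≤ sz b ∧ kB b ≤ sz b ∧ (readI b).Bdd (sz b)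

/-! ### F. The mathematics -/

/-- Module SEP: nonnegative separating vectors. -/
def SEP : Prop := ∀ (S L : Type) [Fintype S] [Fintype L] (T : L → Matrix S S ℝ), IsChain T →
  ∀ α β : S → ℝ, (∀ s, 0 ≤ α s) → (∀ s, 0 ≤ β s) → (∀ ε > 0, ∃ n, ov T n α β < ε) →
  ∀ s : S, ∃ v ∈ evSpan T, (∀ t, 0 ≤ v t) ∧ 0 < v s ∧
    ∀ t, (∃ u : List L, 0 < act T u α s ∧ 0 < act T u β t) → v t = 0

/-- Module COMB: small integral combinations. -/
def COMB : Prop := ∀ (ι S : Type) [Fintype ι] [Fintype S] (X : ι → S → ℕ) (B : ℕ), 1 ≤ B →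
  (∀ i s, X i s ≤ B) → LinearIndependent ℝ (fun i s => (X i s : ℝ)) →
  ∀ v ∈ Submodule.span ℝ (Set.range fun i s => (X i s : ℝ)), (∀ s, 0 ≤ v s) → ∀ s₀, 0 < v s₀ →
  ∃ c : ι → ℤ, (∀ i, |c i| ≤ (Fintype.card S * B : ℤ) ^ Fintype.card S) ∧
    (∀ s, 0 ≤ ∑ i, c i * X i s) ∧ 0 < ∑ i, c i * X i s₀ ∧ ∀ s, v s = 0 → ∑ i, c i * X i s = 0

/-- The vectors obtained by applying integer matrices to the vector `1`. -/
def XV {S L : Type} [Fintype S] (N : L → S → S → ℕ) : List L → S → ℕ
  | [] => fun _ => 1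
  | l :: u => fun s => ∑ t, N l s t * XV N u t

/-- The real span of these vectors. -/
def XSpan {S L : Type} [Fintype S] (N : L → S → S → ℕ) : Submodule ℝ (S → ℝ) :=
  Submodule.span ℝ (Set.range fun u s => (XV N u s : ℝ))

/-- Module BAS: a basis of short words. -/
def BAS : Prop := ∀ (S L : Type) [Fintype S] [Fintype L] (N : L → S → S → ℕ),
  ∃ (r : ℕ) (u : Fin r → List L), r ≤ Fintype.card S ∧ (∀ i, (u i).length ≤ Fintype.card S) ∧
    LinearIndependent ℝ (fun i s => (XV N (u i) s : ℝ)) ∧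
    XSpan N = Submodule.span ℝ (Set.range fun i s => (XV N (u i) s : ℝ))

section

variable {S A L : Type} [Fintype S] [Fintype A] [Fintype L]

/-- The integer matrices given by weights and numerators. -/
def NG (w : S → A → ℕ) (P : S → A → L → S → ℕ) (l : L) (s t : S) : ℕ := ∑ a, w s a * P s a l t

/-- The weights `w` (sum `W`) describe the strategy `σ`. -/
structure Weights (M : LMDP S A L) (w : S → A → ℕ) (W : ℕ) (σ : Strategy M) : Prop where
  pos : 0 < W
  off : ∀ s a, a ∉ M.enabled s → w s a = 0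
  sum : ∀ s, ∑ a, w s a = W
  eq : ∀ s a, σ.wt s a = (w s a : ℝ) / W

/-- The numerators `P` (denominator `D`) describe the probabilities of `M`. -/
structure Numer (M : LMDP S A L) (P : S → A → L → S → ℕ) (D : ℕ) : Prop where
  pos : 0 < D
  eq : ∀ s, ∀ a ∈ M.enabled s, ∀ l t, M.prob s a (l, t) = (P s a l t : ℚ) / D

end

/-- Module MAT: relation of the matrices of the chain and the integer matrices. -/
def MAT : Prop := ∀ (S A L : Type) [Fintype S] [Fintype A] [Fintype L] (M : LMDP S A L)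
  (w : S → A → ℕ) (W : ℕ) (σ : Strategy M) (P : S → A → L → S → ℕ) (D : ℕ),
  Weights M w W σ → Numer M P D →
  (∀ l s t, M.mat σ l s t = (NG w P l s t : ℝ) / (W * D)) ∧ evSpan (M.mat σ) = XSpan (NG w P)

/-- Module WEI: small integral weights with the same sum in all states. -/
def WEI : Prop := ∀ (S A L : Type) [Fintype S] [Fintype A] [Fintype L]
  [MeasurableSpace S] [DiscreteMeasurableSpace S] [MeasurableSpace L] [DiscreteMeasurableSpace L]
  (M : LMDP S A L) (μ ν : S → ℝ), IsDist μ → IsDist ν → (σ : Strategy M) →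
  tvDist (M.labelLaw σ μ) (M.labelLaw σ ν) = 1 →
  ∃ (w : S → A → ℕ) (W : ℕ) (σ' : Strategy M), Weights M w W σ' ∧
    W ≤ (Fintype.card A * (4 ^ Fintype.card S * Fintype.card S ^ 3 + 1)) ^ Fintype.card S ∧
    tvDist (M.labelLaw σ' μ) (M.labelLaw σ' ν) = 1

/-- Module SND: soundness for general types. -/
def SND : Prop := ∀ (S A L : Type) [Fintype S] [Fintype A] [Fintype L]
  [MeasurableSpace S] [DiscreteMeasurableSpace S] [MeasurableSpace L] [DiscreteMeasurableSpace L]
  (M : LMDP S A L) (μ ν : S → ℝ), IsDist μ → IsDist ν → (σ : Strategy M) →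
  ∀ (w : S → A → ℕ) (W : ℕ) (P : S → A → L → S → ℕ) (D : ℕ), Weights M w W σ → Numer M P D →
  ∀ R : S → S → Prop, (∀ s t, 0 < μ s → 0 < ν t → R s t) →
  (∀ s t, R s t → ∀ l s' t', 0 < NG w P l s s' → 0 < NG w P l t t' → R s' t') →
  (∀ s, ∃ v ∈ XSpan (NG w P), (∀ t, 0 ≤ v t) ∧ 0 < v s ∧ ∀ t, R s t → v t = 0) →
  tvDist (M.labelLaw σ μ) (M.labelLaw σ ν) = 1

/-- Module CPL: completeness for general types. -/
def CPL : Prop := ∀ (S A L : Type) [Fintype S] [Fintype A] [Fintype L]
  [MeasurableSpace S] [DiscreteMeasurableSpace S] [MeasurableSpace L] [DiscreteMeasurableSpace L]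
  (M : LMDP S A L) (μ ν : S → ℝ), IsDist μ → IsDist ν → (σ : Strategy M) →
  tvDist (M.labelLaw σ μ) (M.labelLaw σ ν) = 1 →
  ∀ (w : S → A → ℕ) (W : ℕ) (P : S → A → L → S → ℕ) (D : ℕ), Weights M w W σ → Numer M P D →
  (∀ l s, ∑ t, NG w P l s t ≤ W * D) ∧
  ∃ R : S → S → Prop, (∀ s t, 0 < μ s → 0 < ν t → R s t) ∧
    (∀ s t, R s t → ∀ l s' t', 0 < NG w P l s s' → 0 < NG w P l t t' → R s' t') ∧
    ∃ (r : ℕ) (u : Fin r → List L), r ≤ Fintype.card S ∧ (∀ i, (u i).length ≤ Fintype.card S) ∧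
      ∀ s, ∃ c : Fin r → ℤ,
        (∀ i, |c i| ≤ (Fintype.card S * (W * D) ^ Fintype.card S : ℤ) ^ Fintype.card S) ∧
        (∀ t, 0 ≤ ∑ i, c i * XV (NG w P) (u i) t) ∧ 0 < ∑ i, c i * XV (NG w P) (u i) s ∧
        ∀ t, R s t → ∑ i, c i * XV (NG w P) (u i) t = 0

/-- Module FIN: assembly. -/
def FINAL : Prop := distanceOne ∈ NP

end Pool.Agent.H79.DO
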